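import Pool.Agent.Helper74.RN.St

/-!
# Project RN, module FCT: words with separators
-/

set_option autoImplicit false

namespace Pool.Agent.Helper90.RN

open Pool.Agent.Helper74 Pool.Agent.Helper74.RN

theorem fct1 {G : Type} (p : List (Ce G)) : ∀ (p' X Y : List (Ce G)), ns p → ns p' →
    p ++ .s :: X = p' ++ .s :: Y → p = p' ∧ X = Y := by
  induction p with
  | nil =>
    intro p' X Y _ h' h
    cases p' with
    | nil => simpa using h
    | cons z p' =>
      exfalso
      simp only [List.nil_append, List.cons_append, List.cons.injEq] at h
      exact ((ns_cons z p').1 h').1 h.1.symm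
  | cons z p ih =>
    intro p' X Y hp h' h
    cases p' with
    | nil =>
      exfalso
      simp only [List.nil_append, List.cons_append, List.cons.injEq] at h
      exact ((ns_cons z p).1 hp).1 h.1
    | cons z' p' =>
      simp only [List.cons_append, List.cons.injEq] at h
      obtain ⟨h1, h2⟩ := ih p' X Y ((ns_cons z p).1 hp).2 ((ns_cons z' p').1 h').2 h.2
      exact ⟨by rw [h.1, h1], h2⟩

theorem fct2 {G : Type} (A B : Ce G) (X Y : List (Ce G)) (hB : B ≠ .s)
    (q : List (Ce G)) : ∀ N : ℕ, ns q → List.replicate N A ++ .s :: X = q ++ B :: Y →
      q = List.replicate q.length A ∧ q.length < N ∧ B = A ∧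
        Y = List.replicate (N - 1 - q.length) A ++ .s :: X := by
  induction q with
  | nil =>
    intro N _ h
    cases N with
    | zero =>
      exfalso
      simp only [List.replicate_zero, List.nil_append, List.cons.injEq] at h
      exact hB h.1.symm
    | succ N =>
      simp only [List.replicate_succ, List.cons_append, List.nil_append, List.cons.injEq] at h
      refine ⟨rfl, Nat.succ_pos N, h.1.symm, ?_⟩
      simp only [List.length_nil, Nat.add_sub_cancel, Nat.sub_zero]
      exact h.2.symm
  | cons z q ih =>
    intro N hq h
    cases N with
    | zero =>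
      exfalso
      simp only [List.replicate_zero, List.nil_append, List.cons_append, List.cons.injEq] at h
      exact ((ns_cons z q).1 hq).1 h.1.symm
    | succ N =>
      simp only [List.replicate_succ, List.cons_append, List.cons.injEq] at h
      obtain ⟨h1, h2, h3, h4⟩ := ih N ((ns_cons z q).1 hq).2 h.2
      refine ⟨?_, ?_, h3, ?_⟩
      · rw [List.length_cons, List.replicate_succ, ← h1, h.1]
      · rw [List.length_cons]
        omega
      · rw [h4, List.length_cons]
        congr 2
        omega

/-- Words with separators. -/
theorem hFCT : StFCT := fun _ =>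
  ⟨fun p p' X Y hp hp' h => fct1 p p' X Y hp hp' h,
    fun A B N X q Y _ hB hq h => fct2 A B X Y hB q N hq h⟩

end Pool.Agent.Helper90.RN
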